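import Pool.Agent.Helper88.LC.Dec
import Pool.Agent.Helper88.LC.Fin

set_option autoImplicit false

open Finset

namespace Pool.Agent.Results.MP_5dd4bb_nt.LargeConductorPart

noncomputable section

/-- `ψ(N, χ) = ∑_{n ≤ N} Λ(n) χ(n)`. -/
def psiChar (N k : ℕ) (χ : DirichletCharacter ℂ k) : ℂ :=
  ∑ n ∈ Icc 1 N, (ArithmeticFunction.vonMangoldt n : ℂ) * χ (n : ZMod k)

/-- The variance `G(N, k)` of the problem (at the integer point `X = N`). -/
def G (N k : ℕ) : ℝ :=
  ∑ A ∈ (range k).filter (fun A => A.Coprime k),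
    ((∑ n ∈ (Icc 1 N).filter (fun n => n ≡ A [MOD k]), ArithmeticFunction.vonMangoldt n) -
      (N : ℝ) / Nat.totient k) ^ 2

open Classical in
/-- The part of `G(N, k)` carried by the characters mod `k` of conductor at least `D`. -/
def Glarge (N k D : ℕ) : ℝ :=
  (1 / (Nat.totient k : ℝ)) *
    ∑ χ ∈ (univ : Finset (DirichletCharacter ℂ k)).filter (fun χ => D ≤ χ.conductor),
      ‖psiChar N k χ‖ ^ 2

open Classical in
/-- The part of `G(N, k)` carried by the characters mod `k` of conductor less than `D`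
(the principal character with its expected value `N` removed). -/
def Gsmall (N k D : ℕ) : ℝ :=
  (1 / (Nat.totient k : ℝ)) *
    ∑ χ ∈ (univ : Finset (DirichletCharacter ℂ k)).filter (fun χ => χ.conductor < D),
      ‖psiChar N k χ - (if χ = 1 then (N : ℂ) else 0)‖ ^ 2

theorem psiChar_eq (N k : ℕ) (χ : DirichletCharacter ℂ k) :
    psiChar N k χ = Helper88.LC.tw N k (⇑ArithmeticFunction.vonMangoldt) χ := by
  unfold psiChar Helper88.LC.tw
  rw [Helper88.LC.Icc_one_eq]

theorem Glarge_eq (N k D : ℕ) :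
    Glarge N k D = Helper88.LC.VV N k D (⇑ArithmeticFunction.vonMangoldt) := by
  unfold Glarge Helper88.LC.VV
  simp_rw [psiChar_eq]

theorem cl_eq (k N : ℕ) (A : ℕ) (hA : A < k) :
    E8helper88.cl k N ArithmeticFunction.vonMangoldt A =
      ∑ n ∈ (Icc 1 N).filter (fun n => n ≡ A [MOD k]), ArithmeticFunction.vonMangoldt n := by
  unfold E8helper88.cl
  have h1 : Icc 1 N = Ioc 0 N := by ext; simp [Nat.succ_le_iff]
  rw [h1]
  refine sum_congr (filter_congr fun n _ => ?_) fun _ _ => rfl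
  unfold Nat.ModEq
  rw [Nat.mod_eq_of_lt hA]

theorem dec (N k D : ℕ) (hk : 1 ≤ k) (hD : 2 ≤ D) : G N k = Glarge N k D + Gsmall N k D := by
  have h := Helper88.LC.decomp N k D hk hD (⇑ArithmeticFunction.vonMangoldt) (N : ℝ)
  have e1 : G N k = ∑ A ∈ (range k).filter (fun A => Nat.Coprime A k),
      (E8helper88.cl k N (⇑ArithmeticFunction.vonMangoldt) A - (N : ℝ) / Nat.totient k) ^ 2 := by
    unfold G
    refine sum_congr rfl fun A hA => ?_
    rw [mem_filter, mem_range] at hA
    rw [cl_eq k N A hA.1]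
  rw [e1, h, Glarge_eq]
  unfold Gsmall
  simp_rw [psiChar_eq]
  push_cast
  rfl

/-- **Friedlander–Goldston variance, the characters of large conductor.**
(1) `G = Glarge + Gsmall` exactly.
(2) For `N^{1/2+ε} ≤ K ≤ N` and any `D` with `N/K ≤ D ≤ √N`: the lower bound
`Glarge(N,k,D) ≥ N (2 log k − log N − ε log N)` for all but `K^{1-κ}` of the `k ∈ (K, 2K]`,
and the mean of `|Glarge(N,k,D) − N log k|` over `k ∈ (K, 2K]` is at most
`220 N (log (N/K) + ε log N)`.
(3) If `K ≥ N^{1-κ(η)}` then `|Glarge(N,k,D) − N log k| ≤ η N log N` for all but `η K` of the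
`k ∈ (K, 2K]`. -/
theorem result :
    (∀ N k D : ℕ, 1 ≤ k → 2 ≤ D → G N k = Glarge N k D + Gsmall N k D) ∧
    (∀ ε : ℝ, 0 < ε → ∃ κ : ℝ, 0 < κ ∧ ∃ N₀ : ℕ, ∀ N K D : ℕ, N₀ ≤ N →
      (N : ℝ) ^ (1 / 2 + ε) ≤ K → K ≤ N → D ^ 2 ≤ N → N ≤ D * K →
      (((Ioc K (2 * K)).filter (fun k : ℕ => Glarge N k D <
        N * (2 * Real.log k - Real.log N - ε * Real.log N))).card : ℝ) ≤ (K : ℝ) ^ (1 - κ) ∧
      ∑ k ∈ Ioc K (2 * K), |Glarge N k D - N * Real.log k| ≤
        220 * K * N * (Real.log ((N : ℝ) / K) + ε * Real.log N)) ∧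
    (∀ η : ℝ, 0 < η → ∃ κ : ℝ, 0 < κ ∧ ∃ N₀ : ℕ, ∀ N K D : ℕ, N₀ ≤ N →
      (N : ℝ) ^ (1 - κ) ≤ K → K ≤ N → D ^ 2 ≤ N → N ≤ D * K →
      (((Ioc K (2 * K)).filter (fun k : ℕ => η * N * Real.log N <
        |Glarge N k D - N * Real.log k|)).card : ℝ) ≤ η * K) := by
  refine ⟨dec, ?_, ?_⟩
  · intro ε hε
    obtain ⟨κ, hκ, N₀, h⟩ := Helper88.LC.fin ε hε
    refine ⟨κ, hκ, N₀, fun N K D a b c d e => ?_⟩
    simp_rw [Glarge_eq]
    exact h N K D a b c d e
  · intro η hη
    set κ := min (η ^ 2 / 440) (1 / 4) with hκdef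
    have hκ : 0 < κ := lt_min (by positivity) (by norm_num)
    have hκ4 : κ ≤ 1 / 4 := min_le_right _ _
    have hκη : 440 * κ ≤ η ^ 2 := by
      have := min_le_left (η ^ 2 / 440) (1 / 4 : ℝ)
      rw [← hκdef] at this
      linarith
    obtain ⟨_, _, N₀, h⟩ := Helper88.LC.fin κ hκ
    refine ⟨κ, hκ, max N₀ 2, fun N K D hN hNK hKN hDN hNDK => ?_⟩
    have hN2 : 2 ≤ N := (le_max_right _ _).trans hN
    have hN1r : (1 : ℝ) < N := by
      have : 1 < N := by omega
      exact_mod_cast this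
    have hNpos : (0 : ℝ) < N := by linarith
    have hl : 0 < Real.log N := Real.log_pos hN1r
    have hKpos : (0 : ℝ) < K := lt_of_lt_of_le (Real.rpow_pos_of_pos hNpos _) hNK
    have h1 := (h N K D ((le_max_left _ _).trans hN)
      ((Real.rpow_le_rpow_of_exponent_le hN1r.le (by linarith)).trans hNK) hKN hDN hNDK).2
    have h2 : Real.log ((N : ℝ) / K) ≤ κ * Real.log N := by
      rw [Real.log_div hNpos.ne' hKpos.ne']
      have h3 := Real.log_le_log (Real.rpow_pos_of_pos hNpos _) hNK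
      rw [Real.log_rpow hNpos] at h3
      linarith
    set S := (Ioc K (2 * K)).filter (fun k : ℕ => η * N * Real.log N <
        |Glarge N k D - N * Real.log k|) with hS
    have h4 : (S.card : ℝ) * (η * N * Real.log N) ≤
        220 * K * N * (Real.log ((N : ℝ) / K) + κ * Real.log N) := by
      calc (S.card : ℝ) * (η * N * Real.log N) = ∑ k ∈ S, η * N * Real.log N := by
            rw [sum_const, nsmul_eq_mul]
        _ ≤ ∑ k ∈ S, |Glarge N k D - N * Real.log k| := by
            refine sum_le_sum fun k hk => ?_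
            rw [hS, mem_filter] at hk
            exact hk.2.le
        _ ≤ ∑ k ∈ Ioc K (2 * K), |Glarge N k D - N * Real.log k| :=
            sum_le_sum_of_subset_of_nonneg (filter_subset _ _) fun _ _ _ => abs_nonneg _
        _ ≤ _ := by
            simp_rw [Glarge_eq]
            exact h1
    have h5 : 220 * K * N * (Real.log ((N : ℝ) / K) + κ * Real.log N) ≤
        η * K * (η * N * Real.log N) := by
      calc 220 * K * N * (Real.log ((N : ℝ) / K) + κ * Real.log N) ≤
            220 * K * N * (κ * Real.log N + κ * Real.log N) := by gcongr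
        _ = (440 * κ) * (K * N * Real.log N) := by ring
        _ ≤ η ^ 2 * (K * N * Real.log N) := by gcongr
        _ = _ := by ring
    exact le_of_mul_le_mul_right (h4.trans h5) (by positivity)

end

end Pool.Agent.Results.MP_5dd4bb_nt.LargeConductorPart
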