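import Pool.Agent.Helper51.VV.Base
import Pool.Graph.R_seed8.H336R2.V.Main

/-!
# The large values of `ψ(X; Q, A)` do not contribute to the variance: every modulus `Q`, all `X ≤ Q ^ (1 + c)`

By the inequality of Brun and Titchmarsh `ψ(X; Q, A) ≤ (2 + o(1)) (X / φ(Q)) log X / log (X / Q)`. For every `δ > 0`, every
large modulus `Q` has a set `E` of at most `Q ^ (1 - c)` classes such that for ALL `X` with `Q log ^ 5 Q ≤ X ≤ Q ^ (1 + c)` the
constant `2` may be replaced by `δ` for all classes outside `E`, while the classes in `E` contribute at most `X ^ (1 - c)` to the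
variance and to all moments of bounded order. So the lower bound for the variance holds already for the sum over the classes
outside `E`, and no positive share of it is carried by few classes.

Proof: the theorem of the hand-in AllButPowerFewClasses for MP_26a8c3_nt (modules `Pool.Agent.Helper51.PS`), the trivial bound,
and the library's lower bound for the variance for every modulus.
-/

set_option autoImplicit false

open Finset Filter

namespace Pool.Agent.Results.MP_5dd4bb_nt.LargeValuesNegligible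

/-- `ψ(X; Q, A)`: the sum of `Λ(n)` over the `1 ≤ n ≤ X` with `n mod Q = A`, for `0 ≤ A < Q` -/
noncomputable def psi (X : ℝ) (Q A : ℕ) : ℝ :=
  ∑ n ∈ (Icc 1 ⌊X⌋₊).filter (fun n => n % Q = A), ArithmeticFunction.vonMangoldt n

/-- the reduced residue classes modulo `Q` -/
def reduced (Q : ℕ) : Finset ℕ := (range Q).filter (fun A => Nat.Coprime A Q)

/-- `ψ(X; Q, A) - X / φ(Q)`; the variance `G(X, Q)` is the sum of the squares over all reduced classes `A` -/
noncomputable def dev (X : ℝ) (Q A : ℕ) : ℝ := psi X Q A - X / (Nat.totient Q : ℝ)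

lemma sum_eq (X : ℝ) (Q : ℕ) : ∑ A ∈ reduced Q, dev X Q A ^ 2 = H336V.GV X Q := by
  unfold reduced H336V.GV
  apply sum_congr rfl
  intro A hA
  rw [mem_filter, mem_range] at hA
  have h : psi X Q A = H336V.psiA X Q A := by
    unfold psi H336V.psiA
    apply sum_congr _ (fun _ _ => rfl)
    apply filter_congr
    intro n _
    unfold Nat.ModEq
    rw [Nat.mod_eq_of_lt hA.1]
  unfold dev
  rw [h]

/-- **The large values of `ψ(X; Q, A)` do not contribute to the variance.** -/
theorem result (δ ε : ℝ) (hδ : 0 < δ) (hε : 0 < ε) (m : ℕ) : ∃ c : ℝ, 0 < c ∧ ∃ Q₀ : ℕ, ∀ Q : ℕ, Q₀ ≤ Q →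
    ∃ E ⊆ reduced Q, (E.card : ℝ) ≤ (Q : ℝ) ^ (1 - c) ∧
    ∀ X : ℝ, Q * Real.log Q ^ 5 ≤ X → X ≤ (Q : ℝ) ^ (1 + c) →
      -- outside `E` the function is at most `δ / 2` times the bound of Brun and Titchmarsh
      (∀ A ∈ reduced Q, A ∉ E → psi X Q A ≤ δ * (X / Nat.totient Q) * (Real.log X / Real.log (X / Q))) ∧
      -- the classes in `E` are negligible for the variance and for all moments of order at most `m + 2`
      (∀ j ≤ m + 2, ∑ A ∈ E, |dev X Q A| ^ j ≤ X ^ (1 - c)) ∧
      -- lower bound for the sum over the other classes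
      (1 / 2 - ε) * (X * Real.log X) ≤ ∑ A ∈ reduced Q \ E, dev X Q A ^ 2 ∧
      -- a positive share of the variance is not carried by few classes
      (∀ S ⊆ reduced Q, ε * (X * Real.log X) ≤ ∑ A ∈ S, dev X Q A ^ 2 →
        ε / (2 * δ ^ 2) * ((Nat.totient Q : ℝ) ^ 2 * Real.log (X / Q) ^ 2 / (X * Real.log X)) ≤ S.card) := by
  obtain ⟨c₂, hc0, hc4, hE⟩ := Pool.Agent.Helper51.VV.exists_E δ hδ
  obtain ⟨X₀, hX₀⟩ := H336V.main (ε / 4) (by positivity)
  obtain ⟨c, hc, hcm, hcδ, hcε⟩ : ∃ c : ℝ, 0 < c ∧ c * (m + 2) ≤ c₂ / 4 ∧ c ≤ δ ∧ c ≤ ε / 6 := by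
    refine ⟨min (c₂ / 4 / (m + 2)) (min δ (ε / 6)), by positivity, ?_, (min_le_right _ _).trans (min_le_left _ _),
      (min_le_right _ _).trans (min_le_right _ _)⟩
    rw [← le_div_iff₀ (by positivity)]
    exact min_le_left _ _
  have hm0 : (0 : ℝ) ≤ m := Nat.cast_nonneg m
  have hcc : c ≤ c₂ / 8 := by nlinarith
  refine ⟨c, hc, ?_⟩
  have hlogt : Tendsto (fun Q : ℕ => Real.log Q) atTop atTop :=
    Real.tendsto_log_atTop.comp tendsto_natCast_atTop_atTop
  have hev : ∀ᶠ Q : ℕ in atTop, ∃ E ⊆ reduced Q, (E.card : ℝ) ≤ (Q : ℝ) ^ (1 - c) ∧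
    ∀ X : ℝ, Q * Real.log Q ^ 5 ≤ X → X ≤ (Q : ℝ) ^ (1 + c) →
      (∀ A ∈ reduced Q, A ∉ E → psi X Q A ≤ δ * (X / Nat.totient Q) * (Real.log X / Real.log (X / Q))) ∧
      (∀ j ≤ m + 2, ∑ A ∈ E, |dev X Q A| ^ j ≤ X ^ (1 - c)) ∧
      (1 / 2 - ε) * (X * Real.log X) ≤ ∑ A ∈ reduced Q \ E, dev X Q A ^ 2 ∧
      (∀ S ⊆ reduced Q, ε * (X * Real.log X) ≤ ∑ A ∈ S, dev X Q A ^ 2 →
        ε / (2 * δ ^ 2) * ((Nat.totient Q : ℝ) ^ 2 * Real.log (X / Q) ^ 2 / (X * Real.log X)) ≤ S.card) := by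
    filter_upwards [hE, Pool.Agent.Helper51.VV.ev_log (3 * 6 ^ (m + 2)) (m + 2) (c₂ / 4) (by positivity),
      hlogt.eventually_ge_atTop (2 / ε), hlogt.eventually_ge_atTop 2, eventually_ge_atTop 3,
      eventually_ge_atTop ⌈X₀⌉₊] with Q hQE hQ1 hQ2 hQ2' hQ3 hQX0
    obtain ⟨E', hE'1, hE'2, hE'3⟩ := hQE
    have hQr : (3 : ℝ) ≤ Q := by exact_mod_cast hQ3
    have hQ0 : (0 : ℝ) < Q := by linarith
    have hQX : X₀ ≤ Q := Nat.ceil_le.1 hQX0
    have hφ : (0 : ℝ) < Nat.totient Q := by exact_mod_cast Nat.totient_pos.2 (by omega)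
    have hEE : (E' ∩ reduced Q).card ≤ E'.card := card_le_card inter_subset_left
    have hl : 0 < Real.log Q := by linarith
    have h6 : (1 : ℝ) ≤ 6 * Real.log Q := by linarith
    have hpow : (1 : ℝ) ≤ (6 * Real.log Q) ^ (m + 2) := one_le_pow₀ h6
    have h3c : (3 : ℝ) * (6 * Real.log Q) ^ (m + 2) ≤ (Q : ℝ) ^ (c₂ / 4) := by
      rw [mul_pow, ← mul_assoc]
      exact hQ1
    have hcardr : ((E' ∩ reduced Q).card : ℝ) ≤ 3 * (Q : ℝ) ^ (1 - c₂) := by
      have : ((E' ∩ reduced Q).card : ℝ) ≤ E'.card := by exact_mod_cast hEE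
      linarith
    refine ⟨E' ∩ reduced Q, inter_subset_right, ?_, ?_⟩
    · calc ((E' ∩ reduced Q).card : ℝ) ≤ 3 * (Q : ℝ) ^ (1 - c₂) := hcardr
        _ ≤ (Q : ℝ) ^ (c₂ / 4) * (Q : ℝ) ^ (1 - c₂) := by
          apply mul_le_mul_of_nonneg_right _ (by positivity)
          linarith
        _ = (Q : ℝ) ^ (c₂ / 4 + (1 - c₂)) := (Real.rpow_add hQ0 _ _).symm
        _ ≤ (Q : ℝ) ^ (1 - c) := Real.rpow_le_rpow_of_exponent_le (by linarith) (by linarith)
    intro X hX1 hX2
    have hl5 : (1 : ℝ) ≤ Real.log Q ^ 5 := one_le_pow₀ (by linarith)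
    have hl32 : (32 : ℝ) ≤ Real.log Q ^ 5 := by
      calc (32 : ℝ) = 2 ^ 5 := by norm_num
        _ ≤ _ := pow_le_pow_left₀ (by norm_num) hQ2' 5
    have hXQ : (Q : ℝ) ≤ X := le_trans (le_mul_of_one_le_right hQ0.le hl5) hX1
    have hX0 : 0 < X := by linarith
    have hlX : Real.log Q ≤ Real.log X := Real.log_le_log hQ0 hXQ
    have hlX0 : 0 < Real.log X := by linarith
    have hlX2 : Real.log X ≤ (1 + c) * Real.log Q := by
      rw [← Real.log_rpow hQ0]
      exact Real.log_le_log hX0 hX2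
    have ht32 : 32 ≤ X / Q := by
      rw [le_div_iff₀ hQ0]
      nlinarith
    have hlt0 : 0 < Real.log (X / Q) := Real.log_pos (by linarith)
    have hlt : Real.log (X / Q) ≤ c * Real.log X := by
      rw [Real.log_div hX0.ne' hQ0.ne']
      nlinarith
    have hXc : X / Q ≤ (Q : ℝ) ^ c := by
      rw [div_le_iff₀ hQ0]
      refine hX2.trans (le_of_eq ?_)
      rw [Real.rpow_add hQ0, Real.rpow_one]
      ring
    have hX2' : X ≤ (Q : ℝ) ^ (1 + c₂) :=
      hX2.trans (Real.rpow_le_rpow_of_exponent_le (by linarith) (by linarith))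
    have hpsi0 : ∀ A, 0 ≤ psi X Q A := fun A => Pool.Agent.Helper51.VV.ps_nonneg X Q A
    have hXφ : 0 < X / Nat.totient Q := by positivity
    -- the bound outside E
    have hA1 : ∀ A ∈ reduced Q, A ∉ E' ∩ reduced Q →
        psi X Q A ≤ δ * (X / Nat.totient Q) * (Real.log X / Real.log (X / Q)) := by
      intro A hA hAE
      rw [mem_inter, not_and] at hAE
      have hA' := hA
      unfold reduced at hA'
      rw [mem_filter, mem_range] at hA'
      exact hE'3 X hX1 hX2' A hA'.1 (fun h => hAE h hA)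
    -- the bound for all classes
    have hB : ∀ A, |dev X Q A| ≤ 6 * Real.log Q * (Q : ℝ) ^ c := by
      intro A
      have h1 : psi X Q A ≤ 2 * (X / Q) * Real.log X := Pool.Agent.Helper51.VV.ps_triv (by omega) hXQ
      have h2 : X / Nat.totient Q ≤ 3 * Real.log Q * (X / Q) := by
        have h3 := Pool.Agent.Helper51.PS.G4.totient_ge hQ3
        rw [div_le_iff₀ hφ]
        calc X = X / Q * Q := by field_simp
          _ ≤ X / Q * (Nat.totient Q * (3 * Real.log Q)) := by
            apply mul_le_mul_of_nonneg_left h3 (by positivity)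
          _ = _ := by ring
      have h3 : Real.log X ≤ 2 * Real.log Q := by nlinarith
      have h4 : 2 * (X / Q) * Real.log X ≤ 6 * Real.log Q * (Q : ℝ) ^ c := by
        calc 2 * (X / Q) * Real.log X ≤ 2 * (Q : ℝ) ^ c * (2 * Real.log Q) := by gcongr
          _ ≤ 6 * Real.log Q * (Q : ℝ) ^ c := by
            have : 0 ≤ Real.log Q * (Q : ℝ) ^ c := by positivity
            nlinarith
      have h5 : 3 * Real.log Q * (X / Q) ≤ 6 * Real.log Q * (Q : ℝ) ^ c := by
        calc 3 * Real.log Q * (X / Q) ≤ 3 * Real.log Q * (Q : ℝ) ^ c := by gcongr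
          _ ≤ 6 * Real.log Q * (Q : ℝ) ^ c := by
            have : 0 ≤ Real.log Q * (Q : ℝ) ^ c := by positivity
            nlinarith
      unfold dev
      rw [abs_le]
      constructor
      · linarith [hpsi0 A]
      · linarith
    have hQc1 : 1 ≤ (Q : ℝ) ^ c := Real.one_le_rpow (by linarith) hc.le
    have hM : ∀ j ≤ m + 2, ∑ A ∈ E' ∩ reduced Q, |dev X Q A| ^ j ≤ X ^ (1 - c) := by
      intro j hj
      have h1 : (1 : ℝ) ≤ 6 * Real.log Q * (Q : ℝ) ^ c := by nlinarith
      calc ∑ A ∈ E' ∩ reduced Q, |dev X Q A| ^ j ≤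
            ∑ A ∈ E' ∩ reduced Q, (6 * Real.log Q * (Q : ℝ) ^ c) ^ (m + 2) := by
            apply sum_le_sum
            intro A _
            exact (pow_le_pow_left₀ (abs_nonneg _) (hB A) j).trans (pow_le_pow_right₀ h1 hj)
        _ = ((E' ∩ reduced Q).card : ℝ) * (6 * Real.log Q * (Q : ℝ) ^ c) ^ (m + 2) := by
            rw [sum_const, nsmul_eq_mul]
        _ ≤ (3 * (Q : ℝ) ^ (1 - c₂)) * (6 * Real.log Q * (Q : ℝ) ^ c) ^ (m + 2) := by
            apply mul_le_mul_of_nonneg_right hcardr (by positivity)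
        _ = 3 * (6 * Real.log Q) ^ (m + 2) * ((Q : ℝ) ^ (1 - c₂) * ((Q : ℝ) ^ c) ^ (m + 2)) := by
            rw [mul_pow (6 * Real.log Q)]
            ring
        _ ≤ (Q : ℝ) ^ (c₂ / 4) * ((Q : ℝ) ^ (1 - c₂) * (Q : ℝ) ^ (c₂ / 4)) := by
            apply mul_le_mul h3c _ (by positivity) (by positivity)
            apply mul_le_mul_of_nonneg_left _ (by positivity)
            rw [← Real.rpow_natCast, ← Real.rpow_mul hQ0.le]
            apply Real.rpow_le_rpow_of_exponent_le (by linarith)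
            push_cast
            exact hcm
        _ = (Q : ℝ) ^ (c₂ / 4 + (1 - c₂ + c₂ / 4)) := by
            rw [Real.rpow_add hQ0, Real.rpow_add hQ0 (1 - c₂)]
        _ ≤ (Q : ℝ) ^ (1 - c) := Real.rpow_le_rpow_of_exponent_le (by linarith) (by linarith)
        _ ≤ X ^ (1 - c) := Real.rpow_le_rpow hQ0.le hXQ (by linarith)
    have hM2 : ∑ A ∈ E' ∩ reduced Q, dev X Q A ^ 2 ≤ ε / 2 * (X * Real.log X) := by
      have h1 := hM 2 (by omega)
      simp only [sq_abs] at h1
      have h2 : X ^ (1 - c) ≤ X := by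
        calc X ^ (1 - c) ≤ X ^ (1 : ℝ) := Real.rpow_le_rpow_of_exponent_le (by linarith) (by linarith)
          _ = X := Real.rpow_one X
      have h3 : 1 ≤ ε / 2 * Real.log X := by
        have h4 : 2 / ε ≤ Real.log X := hQ2.trans hlX
        rw [div_le_iff₀ hε] at h4
        linarith
      calc _ ≤ X := h1.trans h2
        _ ≤ X * (ε / 2 * Real.log X) := le_mul_of_one_le_right hX0.le h3
        _ = _ := by ring
    refine ⟨hA1, hM, ?_, ?_⟩
    · have h1 := hX₀ X (hQX.trans hXQ) Q (by omega) hXQ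
      rw [← sum_eq] at h1
      have h2 : ∑ A ∈ reduced Q \ (E' ∩ reduced Q), dev X Q A ^ 2 + ∑ A ∈ E' ∩ reduced Q, dev X Q A ^ 2 =
          ∑ A ∈ reduced Q, dev X Q A ^ 2 := sum_sdiff inter_subset_right
      have h3 : (1 / 2 - ε / 2) * Real.log X ≤ 3 / 2 * Real.log Q - Real.log X - ε / 4 * Real.log X := by
        have h4 : (1 - c) * Real.log X ≤ Real.log Q := by
          have h5 : 0 ≤ c ^ 2 * Real.log Q := by positivity
          have h6 : (1 - c) * Real.log X ≤ (1 - c) * ((1 + c) * Real.log Q) := by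
            apply mul_le_mul_of_nonneg_left hlX2
            linarith
          nlinarith
        nlinarith
      have h4 : X * ((1 / 2 - ε / 2) * Real.log X) ≤
          X * (3 / 2 * Real.log Q - Real.log X - ε / 4 * Real.log X) := mul_le_mul_of_nonneg_left h3 hX0.le
      nlinarith
    · intro S hS hSε
      set T : ℝ := δ * (X / Nat.totient Q) * (Real.log X / Real.log (X / Q)) with hT
      have hT0 : 0 < T := by positivity
      have hTφ : X / Nat.totient Q ≤ T := by
        have h1 : 1 ≤ δ * (Real.log X / Real.log (X / Q)) := by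
          rw [← mul_div_assoc, le_div_iff₀ hlt0]
          nlinarith
        calc X / Nat.totient Q ≤ X / Nat.totient Q * (δ * (Real.log X / Real.log (X / Q))) :=
              le_mul_of_one_le_right hXφ.le h1
          _ = T := by rw [hT]; ring
      have h1 : ∑ A ∈ S, dev X Q A ^ 2 ≤ S.card * T ^ 2 + ε / 2 * (X * Real.log X) := by
        have h2 : ∑ A ∈ S \ (E' ∩ reduced Q), dev X Q A ^ 2 + ∑ A ∈ S ∩ (E' ∩ reduced Q), dev X Q A ^ 2 =
            ∑ A ∈ S, dev X Q A ^ 2 := by
          rw [← sdiff_inter_self_left S (E' ∩ reduced Q)]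
          exact sum_sdiff inter_subset_left
        have h3 : ∑ A ∈ S ∩ (E' ∩ reduced Q), dev X Q A ^ 2 ≤ ∑ A ∈ E' ∩ reduced Q, dev X Q A ^ 2 :=
          sum_le_sum_of_subset_of_nonneg inter_subset_right (fun _ _ _ => sq_nonneg _)
        have h4 : ∑ A ∈ S \ (E' ∩ reduced Q), dev X Q A ^ 2 ≤ ∑ A ∈ S \ (E' ∩ reduced Q), T ^ 2 := by
          apply sum_le_sum
          intro A hA
          rw [Finset.mem_sdiff] at hA
          have h5 := hA1 A (hS hA.1) hA.2
          have h6 : |dev X Q A| ≤ T := by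
            unfold dev
            rw [abs_le]
            constructor
            · linarith [hpsi0 A]
            · linarith
          rw [← sq_abs]
          exact pow_le_pow_left₀ (abs_nonneg _) h6 2
        rw [sum_const, nsmul_eq_mul] at h4
        have h5 : ((S \ (E' ∩ reduced Q)).card : ℝ) * T ^ 2 ≤ S.card * T ^ 2 := by
          apply mul_le_mul_of_nonneg_right _ (by positivity)
          exact_mod_cast card_le_card sdiff_subset
        linarith
      have h2 : ε / 2 * (X * Real.log X) ≤ S.card * T ^ 2 := by linarith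
      have h3 : ε / (2 * δ ^ 2) * ((Nat.totient Q : ℝ) ^ 2 * Real.log (X / Q) ^ 2 / (X * Real.log X)) =
          ε / 2 * (X * Real.log X) / T ^ 2 := by
        rw [hT]
        field_simp
      rw [h3, div_le_iff₀ (by positivity)]
      exact h2
  exact eventually_atTop.1 hev

end Pool.Agent.Results.MP_5dd4bb_nt.LargeValuesNegligible
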