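import Pool.Agent.Helper37.VFG.Ran2

/-!
# The variance of primes in arithmetic progressions in the mean over `log X`, for every large modulus

`G(x,Q)` is the variance of the problem and `C_Q` the constant of the asymptotic formula of Friedlander and Goldston.
Unconditionally, for every `ε > 0` there is `Q₀` such that for EVERY modulus `Q ≥ Q₀`:

1. for all `δ > 0` the mean value of `G(x,Q)/x` with respect to the probability measure `2δ x^{-1-2δ} dx` on `(1,∞)` is at least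
   `log Q - C_Q - (1 + ε) δ (log Q)² - ε` (it may be infinite). The term `δ (log Q)²` is due to the `x < Q`, where
   `G(x,Q)/x` is about `log x`;
2. for all `δ > 0` with `K = δ log Q ≤ 1` the mean value of `G(x,Q)/x` with respect to the probability measure
   `2δ Q^{2δ} x^{-1-2δ} dx` on `(Q,∞)` is at least `(1 - (2/3) K² e^{2K} - ε) log Q`. Under this measure `x = Q^A`, where
   `A - 1` has the exponential law with mean `1/(2K)`;
3. the logarithmic mean value `(1/log X) ∫_1^X G(x,Q)/x · dx/x` is at least `log Q - C_Q - ε` for arbitrarily large `X`.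

Proof of 1. Let `χ ≠ χ₀` mod `Q` and suppose that the mean value of `|ψ(x,χ)|²/x` is finite. Then `L(s,χ)` has no zeros with real
part `> 1/2 + δ`, and a form of Plancherel's theorem expresses it by the mean square, with the weight `1/|s|²`, of the REAL PART of
`L'/L(s,χ)` on `Re s = 1/2 + δ`. By Hadamard's product the real part is `P(s) - b(s)` with a sum `P` of positive terms over the
zeros and an elementary `b`; we keep the diagonal of `P²`, compute its integral by Poisson's formula, and find a multiple of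
`P(1 + 2δ)`, which is averaged over `χ`.
-/

set_option autoImplicit false

open MeasureTheory Filter Topology

namespace Pool.Agent.Results.MP_5dd4bb_nt.LogarithmicMean

/-- `ψ(X;Q,A)`, `0 ≤ A < Q`: the sum of `Λ(n)` over `1 ≤ n ≤ X` with `n ≡ A mod Q`. -/
noncomputable def psi (X : ℝ) (Q A : ℕ) : ℝ :=
  ∑ n ∈ (Finset.Icc 1 ⌊X⌋₊).filter (fun n => n % Q = A), ArithmeticFunction.vonMangoldt n

/-- The variance `G(X,Q)`. -/
noncomputable def G (X : ℝ) (Q : ℕ) : ℝ :=
  ∑ A ∈ (Finset.range Q).filter (fun A => Nat.Coprime A Q), (psi X Q A - X / (Nat.totient Q : ℝ)) ^ 2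

/-- The constant `C_Q`. -/
noncomputable def CQ (Q : ℕ) : ℝ :=
  (∑ p ∈ Q.primeFactors, Real.log (p : ℝ) / ((p : ℝ) - 1)) + Real.eulerMascheroniConstant + Real.log (2 * Real.pi)

/-- **Theorem.** Unconditionally, for every `ε > 0` there is `Q₀` such that for every modulus `Q ≥ Q₀`:
(1) for all `δ > 0` the mean value `2δ ∫_1^∞ G(x,Q) x^{-2-2δ} dx` (an integral with values in `[0, ∞]`) is at least
`log Q - C_Q - (1 + ε) δ (log Q)² - ε`; (2) for `δ > 0` with `K = δ log Q ≤ 1` the mean value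
`2δ Q^{2δ} ∫_Q^∞ G(x,Q) x^{-2-2δ} dx` is at least `(1 - (2/3) K² e^{2K} - ε) log Q`; (3) there are arbitrarily large `X` with
`(1/log X) ∫_1^X G(x,Q) x^{-2} dx ≥ log Q - C_Q - ε`. -/
theorem result : ∀ ε : ℝ, 0 < ε → ∃ Q₀ : ℕ, ∀ Q : ℕ, Q₀ ≤ Q →
    (∀ δ : ℝ, 0 < δ → ENNReal.ofReal (Real.log Q - CQ Q - (1 + ε) * δ * Real.log Q ^ 2 - ε) ≤
      ENNReal.ofReal (2 * δ) * ∫⁻ x in Set.Ioi (1:ℝ), ENNReal.ofReal (G x Q * x ^ (-(2 + 2 * δ)))) ∧
    (∀ δ : ℝ, 0 < δ → δ * Real.log Q ≤ 1 →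
      ENNReal.ofReal ((1 - 2 / 3 * (δ * Real.log Q) ^ 2 * Real.exp (2 * (δ * Real.log Q)) - ε) * Real.log Q) ≤
        ENNReal.ofReal (2 * δ * (Q : ℝ) ^ (2 * δ)) *
          ∫⁻ x in Set.Ioi (Q:ℝ), ENNReal.ofReal (G x Q * x ^ (-(2 + 2 * δ)))) ∧
    (∀ X₀ : ℝ, ∃ X : ℝ, X₀ ≤ X ∧ 1 < X ∧
      Real.log Q - CQ Q - ε ≤ 1 / Real.log X * ∫ x in (1:ℝ)..X, G x Q / x ^ 2) := by
  intro ε hε
  have h1 := Helper37.VFG.main_sharp_enn hε
  have h2 := Helper37.VFG.high_part hε
  have h3 := Helper37.VFG.log_mean H37F.EE_avg hε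
  obtain ⟨Q₀, hQ₀⟩ := eventually_atTop.1 (h1.and (h2.and h3))
  refine ⟨Q₀, fun Q hQ => ?_⟩
  obtain ⟨a1, a2, a3⟩ := hQ₀ Q hQ
  refine ⟨a1, a2, fun X₀ => ?_⟩
  obtain ⟨X, b1, b2, b3⟩ := a3 X₀
  refine ⟨X, b1, b2, ?_⟩
  have hl : 0 < Real.log X := Real.log_pos b2
  rw [one_div, inv_mul_eq_div, le_div_iff₀ hl]
  exact b3

end Pool.Agent.Results.MP_5dd4bb_nt.LogarithmicMean
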