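import Pool.Agent.Helper88.SU.Blk
import Pool.Agent.Helper88.SU.Dev

set_option autoImplicit false

open Finset

namespace Pool.Agent.Results.MP_5dd4bb_nt.SharpUpperMean

noncomputable section

/-- `ψ(N, χ) = ∑_{n ≤ N} Λ(n) χ(n)`. -/
def psiChar (N k : ℕ) (χ : DirichletCharacter ℂ k) : ℂ :=
  ∑ n ∈ Icc 1 N, (ArithmeticFunction.vonMangoldt n : ℂ) * χ (n : ZMod k)

open Classical in
/-- The part of the variance `G(N, k)` carried by the characters mod `k` of conductor at least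
`D ≥ 2`: for these characters `ψ(N, χ)` is not changed if `N / φ(k)` is subtracted from every
`ψ(N; k, A)`, `(A, k) = 1`. -/
def Glarge (N k D : ℕ) : ℝ :=
  (1 / (Nat.totient k : ℝ)) *
    ∑ χ ∈ (univ : Finset (DirichletCharacter ℂ k)).filter (fun χ => D ≤ χ.conductor),
      ‖psiChar N k χ‖ ^ 2

theorem Glarge_eq (N k D : ℕ) :
    Glarge N k D = Helper88.LC.VV N k D (⇑ArithmeticFunction.vonMangoldt) := by
  unfold Glarge Helper88.LC.VV psiChar Helper88.LC.tw
  rw [Helper88.LC.Icc_one_eq]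

/-- **Friedlander–Goldston variance: the upper bound with the conjectured constant, in logarithmic
mean over the modulus, for the characters of large conductor.** For `X < k ≤ Y`, `T X ≤ Y`,
`T Y ≤ N ≤ X ^ (2 - ε)` (so that `k` runs through any long interval in the range
`N ^ (1/2 + ε) < k < N / T`) and all `D ≥ T N / X`:
(1) `∑_k (1/k) Glarge(N, k, D) ≤ (1 + ε) N ∑_k (1/k) log k`;
(2) if moreover `D² ≤ N`, then
`∑_k (1/k) |Glarge(N, k, D) - N log k| ≤ 2 N ∑_k (1/k) (log (N/k) + ε log N)`. -/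
theorem result : ∀ ε : ℝ, 0 < ε → ∃ T : ℝ, 1 ≤ T ∧ ∀ X Y N D : ℕ,
    T ≤ X → T * X ≤ Y → T * Y ≤ N → (N : ℝ) ≤ (X : ℝ) ^ (2 - ε) → T * N ≤ D * X →
    ∑ k ∈ Ioc X Y, (1 / (k : ℝ)) * Glarge N k D ≤
      (1 + ε) * N * ∑ k ∈ Ioc X Y, (1 / (k : ℝ)) * Real.log k ∧
    (D ^ 2 ≤ N →
      ∑ k ∈ Ioc X Y, (1 / (k : ℝ)) * |Glarge N k D - N * Real.log k| ≤
        2 * N * ∑ k ∈ Ioc X Y, (1 / (k : ℝ)) * (Real.log ((N : ℝ) / k) + ε * Real.log N)) := by
  intro ε hε
  have hblk : ∀ e : ℝ, 0 < e → e ≤ 1 → ∃ K : ℝ, 1 ≤ K ∧ Helper88.SU.SBlk e K := fun e he he1 => by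
    obtain ⟨K, hK, hb⟩ := Helper88.SU.block e he he1
    exact ⟨K, hK, hb⟩
  obtain ⟨T₁, hT₁, h⟩ := Helper88.SU.main hblk (min ε 1) (by positivity) (min_le_right _ _)
  obtain ⟨T₂, hT₂, h'⟩ := Helper88.SU.dev hblk (min ε 1) (by positivity) (min_le_right _ _)
  refine ⟨max T₁ T₂, hT₁.trans (le_max_left _ _), fun X Y N D hX hXY hYN hNX hDX => ?_⟩
  have c1 := le_max_left T₁ T₂
  have c2 := le_max_right T₁ T₂
  have hX1 : (1 : ℝ) ≤ X := hT₁.trans (c1.trans hX)
  have hX0 : (0 : ℝ) ≤ X := by linarith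
  have hY0 : (0 : ℝ) ≤ Y := Nat.cast_nonneg _
  have hN0 : (0 : ℝ) ≤ N := Nat.cast_nonneg _
  have hNX' : (N : ℝ) ≤ (X : ℝ) ^ (2 - min ε 1) :=
    hNX.trans (Real.rpow_le_rpow_of_exponent_le hX1 (by
      have := min_le_left ε 1
      linarith))
  constructor
  · have h1 := h X Y N D (c1.trans hX) ((mul_le_mul_of_nonneg_right c1 hX0).trans hXY)
      ((mul_le_mul_of_nonneg_right c1 hY0).trans hYN) hNX'
      ((mul_le_mul_of_nonneg_right c1 hN0).trans hDX)
    unfold Helper88.SU.LG Helper88.SU.EX at h1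
    simp_rw [← Glarge_eq] at h1
    have h2 : 0 ≤ ∑ k ∈ Ioc X Y, (1 / (k : ℝ)) * Real.log k :=
      sum_nonneg fun k _ => mul_nonneg (by positivity) (Real.log_natCast_nonneg k)
    calc _ ≤ _ := h1
      _ = (1 + min ε 1) * (N * ∑ k ∈ Ioc X Y, (1 / (k : ℝ)) * Real.log k) := rfl
      _ ≤ (1 + ε) * (N * ∑ k ∈ Ioc X Y, (1 / (k : ℝ)) * Real.log k) := by
          apply mul_le_mul_of_nonneg_right _ (by positivity)
          have := min_le_left ε 1
          linarith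
      _ = _ := by ring
  · intro hDN
    have h1 := h' X Y N D (c2.trans hX) ((mul_le_mul_of_nonneg_right c2 hX0).trans hXY)
      ((mul_le_mul_of_nonneg_right c2 hY0).trans hYN) hNX'
      ((mul_le_mul_of_nonneg_right c2 hN0).trans hDX) hDN
    simp_rw [← Glarge_eq] at h1
    refine h1.trans ?_
    apply mul_le_mul_of_nonneg_left _ (by positivity)
    refine sum_le_sum fun k _ => ?_
    apply mul_le_mul_of_nonneg_left _ (by positivity)
    have h2 : min ε 1 * Real.log N ≤ ε * Real.log N :=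
      mul_le_mul_of_nonneg_right (min_le_left _ _) (Real.log_natCast_nonneg N)
    linarith

end

end Pool.Agent.Results.MP_5dd4bb_nt.SharpUpperMean
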